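import Pool.Agent.Helper98.EQ.Goals
import Mathlib.RingTheory.LocalRing.Module
import Mathlib.LinearAlgebra.Matrix.Rank

/-! Packet EQ-IDR: traces of idempotent matrices over local rings. -/

set_option autoImplicit false

namespace Pool.Agent.Helper42.EQ.IDR

open Matrix

theorem t : Pool.Agent.Helper98.EQ.S_IDR := by
  classical
  intro R X _ _ _ _ Q hQ
  -- the range of `Q`
  let q : (X → R) →ₗ[R] (X → R) := Q.mulVecLin
  have hqq : ∀ v, q (q v) = q v := by
    intro v
    simp only [q, Matrix.mulVecLin_apply, Matrix.mulVec_mulVec, hQ]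
  let P : Submodule R (X → R) := LinearMap.range q
  have hfix : ∀ v ∈ P, q v = v := by
    rintro v ⟨w, rfl⟩
    exact hqq w
  let pr : (X → R) →ₗ[R] P := q.rangeRestrict
  have : Module.Finite R P := Module.Finite.range q
  have : Module.Projective R P := by
    refine Module.Projective.of_split P.subtype pr ?_
    apply LinearMap.ext
    intro v
    apply Subtype.ext
    exact hfix v.1 v.2
  have : Module.Free R P := Module.free_of_flat_of_isLocalRing
  let m : ℕ := Module.finrank R P
  let b : Module.Basis (Fin m) R P := Module.finBasis R P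
  let B : Matrix X (Fin m) R := fun x i => (b i : X → R) x
  let C : Matrix (Fin m) X R := fun i y => b.repr (pr (Pi.single y 1)) i
  have hBC : B * C = Q := by
    ext x y
    have h1 : ((∑ i, b.repr (pr (Pi.single y 1)) i • b i : P) : X → R) = Q.mulVec (Pi.single y 1) := by
      rw [b.sum_repr]
      rfl
    have h2 := congrFun h1 x
    rw [Submodule.coe_sum, Finset.sum_apply] at h2
    rw [Matrix.mul_apply]
    have h3 : Q.mulVec (Pi.single y 1) x = Q x y := by
      simp [Matrix.mulVec_single]
    rw [← h3, ← h2]
    refine Finset.sum_congr rfl fun i _ => ?_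
    simp only [B, C, Submodule.coe_smul, Pi.smul_apply, smul_eq_mul]
    exact mul_comm _ _
  have hCB : C * B = 1 := by
    ext i j
    rw [Matrix.mul_apply]
    have h1 : ∑ y, (b j : X → R) y • pr (Pi.single y 1) = b j := by
      have h0 : ∑ y, (b j : X → R) y • (Pi.single y (1 : R) : X → R) = (b j : X → R) := by
        ext x
        simp [Finset.sum_apply, Pi.single_apply]
      have h00 : ∑ y, (b j : X → R) y • pr (Pi.single y 1) = pr (∑ y, (b j : X → R) y • (Pi.single y (1 : R) : X → R)) := by
        rw [map_sum]
        exact Finset.sum_congr rfl fun y _ => (map_smul pr _ _).symm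
      rw [h00, h0]
      apply Subtype.ext
      exact hfix _ (b j).2
    have h2 := congrArg (fun z => b.repr z i) h1
    simp only [map_sum, map_smul, Finsupp.coe_finsetSum, Finset.sum_apply, Finsupp.smul_apply,
      smul_eq_mul, Module.Basis.repr_self] at h2
    rw [Matrix.one_apply]
    have h3 : (Finsupp.single j (1 : R)) i = if i = j then 1 else 0 := by
      rw [Finsupp.single_apply]
      simp only [eq_comm]
    rw [← h3, ← h2]
    refine Finset.sum_congr rfl fun y _ => ?_
    simp only [B, C]
    exact mul_comm _ _
  refine ⟨m, ?_, ?_⟩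
  · rw [← hBC, Matrix.trace_mul_comm, hCB, Matrix.trace_one, Fintype.card_fin]
  · intro k _ f
    have e1 : Q.map f = B.map f * C.map f := by
      rw [← Matrix.map_mul, hBC]
    have e2 : C.map f * B.map f = (1 : Matrix (Fin m) (Fin m) k) := by
      rw [← Matrix.map_mul, hCB]
      exact Matrix.map_one f (map_zero f) (map_one f)
    have e3 : (1 : Matrix (Fin m) (Fin m) k) = C.map f * (Q.map f * B.map f) := by
      rw [e1, Matrix.mul_assoc, e2, Matrix.mul_one, e2]
    apply le_antisymm
    · calc (Q.map f).rank ≤ (B.map f).rank := by rw [e1]; exact Matrix.rank_mul_le_left _ _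
        _ ≤ Fintype.card (Fin m) := Matrix.rank_le_card_width _
        _ = m := Fintype.card_fin m
    · calc m = Fintype.card (Fin m) := (Fintype.card_fin m).symm
        _ = (1 : Matrix (Fin m) (Fin m) k).rank := (Matrix.rank_one).symm
        _ ≤ (Q.map f * B.map f).rank := by rw [e3]; exact Matrix.rank_mul_le_right _ _
        _ ≤ (Q.map f).rank := Matrix.rank_mul_le_left _ _

end Pool.Agent.Helper42.EQ.IDR
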